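import Mathlib

namespace Pool.Agent.Results.MP_b9e9b1_co.Counter

/-- Diameter of a finite subset of the cube (Hamming distance). -/
def diam {n : ℕ} (A : Finset (Fin n → Bool)) : ℕ :=
  A.sup (fun x => A.sup (fun y => hammingDist x y))

def MaxDiam {n : ℕ} (r : ℕ) (A : Finset (Fin n → Bool)) : Prop :=
  diam A = r ∧ ∀ x, x ∉ A → r < diam (insert x A)

def Rigid {n : ℕ} (A : Finset (Fin n → Bool)) : Prop :=
  ∀ a ∈ A, A.sup (fun x => hammingDist x a) = diam A

/-- `b'(n; r)`. -/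
noncomputable def bb (n r : ℕ) : ℕ :=
  sSup {k | ∃ A : Finset (Fin n → Bool), MaxDiam r A ∧ Rigid A ∧ A.card = k}

def pt (m : ℕ) : Fin 7 → Bool := fun i => m.testBit i.1

def L : List ℕ := [0, 2, 4, 6, 14, 17, 18, 20, 21, 22, 23, 26, 28, 31, 34, 36, 38, 39, 44, 47, 48,
  50, 52, 55, 56, 65, 66, 68, 86, 94, 114, 116, 118]

def A : Finset (Fin 7 → Bool) := (L.map pt).toFinset

lemma card_A : A.card = 33 := by decide +kernel
lemma diam_A : diam A = 5 := by unfold diam; decide +kernel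
lemma rig_A : ∀ a ∈ A, A.sup (fun x => hammingDist x a) = 5 := by decide +kernel
lemma far_A : ∀ x, x ∉ A → ∃ y ∈ A, 5 < hammingDist x y := by decide +kernel

theorem result : (∃ A : Finset (Fin 7 → Bool), MaxDiam 5 A ∧ Rigid A ∧ A.card = 33) ∧
    ¬ ∀ n r : ℕ, r ≤ n → bb n r = 2 ^ r := by
  have key : MaxDiam 5 A ∧ Rigid A ∧ A.card = 33 := by
    refine ⟨⟨diam_A, fun x hx => ?_⟩, fun a ha => by rw [diam_A]; exact rig_A a ha, card_A⟩
    obtain ⟨y, hy, h⟩ := far_A x hx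
    refine lt_of_lt_of_le h ?_
    refine le_trans ?_ (Finset.le_sup (f := fun u => (insert x A).sup (fun y => hammingDist u y))
      (Finset.mem_insert_self x A))
    exact Finset.le_sup (f := fun y => hammingDist x y) (Finset.mem_insert_of_mem hy)
  refine ⟨⟨A, key⟩, fun h => ?_⟩
  have h1 := h 7 5 (by norm_num)
  have h2 : 33 ≤ bb 7 5 := by
    refine le_csSup ⟨Fintype.card (Fin 7 → Bool), ?_⟩ ⟨A, key⟩
    rintro k ⟨B, -, -, rfl⟩
    exact Finset.card_le_univ B
  omega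

end Pool.Agent.Results.MP_b9e9b1_co.Counter
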